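import Pool.Agent.H94.LH.Stmts

/-! # Row NUL of LH: the parameters -/

set_option autoImplicit false

namespace Pool.LH

private lemma ceil_bd (x : ℝ) (hx : 1 ≤ x) : x ≤ (⌈x⌉₊ : ℝ) ∧ (⌈x⌉₊ : ℝ) ≤ 2 * x := by
  have h1 := Nat.le_ceil x
  have h2 := (Nat.ceil_lt_add_one (by linarith : (0 : ℝ) ≤ x)).le
  constructor
  · exact h1
  · linarith

/-- the inequalities, real variables only -/
private lemma core (δ lam t A G K0 L h0 g a M n : ℝ) (hδ : 0 < δ) (hδ1 : δ ≤ 1) (hl : 0 < lam)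
    (ht : 1 ≤ t) (hlt8 : 8 ≤ lam * t) (hA : lam * δ * A = 256) (hA1 : 256 ≤ A)
    (hG : 64 * t * A ≤ G * δ) (hG1 : 1 ≤ G) (hK0 : K0 * δ = 2560 * A * t)
    (hL : 16 * t ≤ L) (ha : 1 ≤ a) (hga : a < g) (hg8 : g ≤ 8 * a) (hh : K0 * a ^ 2 * L ≤ h0)
    (hlog : Real.log (6 * g) ≤ δ / 1000 * L)
    (hM1 : A * g ≤ M * G) (hM2 : M * G ≤ 2 * A * g) (hMg : M ≤ g) (hM : 1 ≤ M) (hn : 2 ≤ n)
    (hn1 : 4 * h0 ≤ lam * t * L * (M * n)) (hn2 : lam * t * L * (M * n) ≤ 8 * h0) :
    2 * h0 / (M * n) + 2 * L < lam * t * L ∧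
      100 * (M * n) * Real.log (6 * g) + 4 * n * (2 * t * (g * L / G)) +
        M * (2 * t * (4 * h0 / g + g * L / G)) + M < δ * h0 ∧
      Real.log (4 * t * (g * L / G) + 4) + h0 / (M * n) + 1 < lam * t * L ∧
      Real.log (4 * t) ≤ h0 / 4 := by
  have hL1 : 1 ≤ L := by linarith
  have hL0 : 0 < L := by linarith
  have hg0 : 0 < g := by linarith
  have hG0 : 0 < G := by linarith
  have hA0 : 0 < A := by linarith
  have ht0 : 0 < t := by linarith
  have hM0 : 0 < M := by linarith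
  have hn0 : 0 < n := by linarith
  have hMn : 0 < M * n := by positivity
  have hltL : 8 * L ≤ lam * t * L := by nlinarith
  have hK1 : 2560 * A * t ≤ K0 := by
    have : 0 ≤ K0 := by
      by_contra h
      push Not at h
      have h1 : K0 * δ < 0 := mul_neg_of_neg_of_pos h hδ
      have h2 : 0 < 2560 * A * t := by positivity
      linarith
    nlinarith
  have hK0p : 0 < K0 := by
    have : 0 < 2560 * A * t := by positivity
    linarith
  have ha2 : a ≤ a ^ 2 := by nlinarith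
  have hKa : K0 * a ≤ h0 := by
    calc K0 * a = K0 * a * 1 := by ring
      _ ≤ K0 * a ^ 2 * L := by
        apply mul_le_mul (mul_le_mul_of_nonneg_left ha2 hK0p.le) hL1 (by norm_num) (by positivity)
      _ ≤ h0 := hh
  have hKh : K0 ≤ h0 := by nlinarith
  have hh0 : 0 < h0 := by linarith
  have hAt : 256 * t ≤ A * t := by nlinarith
  have e1 : h0 / (M * n) ≤ lam * t * L / 4 := by
    rw [div_le_iff₀ hMn]
    linarith
  have e1' : 2 * h0 / (M * n) = 2 * (h0 / (M * n)) := by ring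
  refine ⟨by rw [e1']; linarith, ?_, ?_, ?_⟩
  · -- (2)
    have t1 : 100 * (M * n) * Real.log (6 * g) ≤ δ * h0 / 10 := by
      have s1 : (M * n) * L ≤ h0 := by
        have : 8 * (L * (M * n)) ≤ lam * t * (L * (M * n)) :=
          mul_le_mul_of_nonneg_right hlt8 (by positivity)
        nlinarith
      calc 100 * (M * n) * Real.log (6 * g) ≤ 100 * (M * n) * (δ / 1000 * L) :=
            mul_le_mul_of_nonneg_left hlog (by positivity)
        _ = δ / 10 * ((M * n) * L) := by ring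
        _ ≤ δ / 10 * h0 := mul_le_mul_of_nonneg_left s1 (by positivity)
        _ = δ * h0 / 10 := by ring
    have t2 : 4 * n * (2 * t * (g * L / G)) ≤ δ * h0 / 4 := by
      have s1 : 4 * n * (2 * t * (g * L / G)) = 8 * (t * L * n * g) / G := by ring
      rw [s1, div_le_iff₀ hG0]
      -- A g ≤ M G ; lam t L M n ≤ 8 h0
      have s2 : lam * t * L * n * (A * g) ≤ lam * t * L * n * (M * G) :=
        mul_le_mul_of_nonneg_left hM1 (by positivity)
      have s3 : lam * t * L * n * (M * G) ≤ 8 * h0 * G := by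
        have := mul_le_mul_of_nonneg_right hn2 hG0.le
        nlinarith
      have s4 : δ * (lam * t * L * n * (A * g)) = 256 * (t * L * n * g) := by
        calc δ * (lam * t * L * n * (A * g)) = (lam * δ * A) * (t * L * n * g) := by ring
          _ = 256 * (t * L * n * g) := by rw [hA]
      have s5 : δ * (lam * t * L * n * (A * g)) ≤ δ * (8 * h0 * G) :=
        mul_le_mul_of_nonneg_left (s2.trans s3) hδ.le
      rw [s4] at s5
      nlinarith
    have t3 : M * (2 * t * (4 * h0 / g)) ≤ δ * h0 / 4 := by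
      have s1 : M * (2 * t * (4 * h0 / g)) = 8 * (M * t * h0) / g := by ring
      rw [s1, div_le_iff₀ hg0]
      have s2 : M * G * (t * h0) ≤ 2 * A * g * (t * h0) :=
        mul_le_mul_of_nonneg_right hM2 (by positivity)
      have s3 : 64 * t * A * (M * t * h0) ≤ G * δ * (M * t * h0) :=
        mul_le_mul_of_nonneg_right hG (by positivity)
      have s4 : G * δ * (M * t * h0) ≤ δ * (2 * A * g * (t * h0)) := by
        have := mul_le_mul_of_nonneg_left s2 hδ.le
        nlinarith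
      have s5 : (t * A) * (64 * (M * t * h0)) ≤ (t * A) * (2 * δ * g * h0) := by nlinarith
      have s6 := le_of_mul_le_mul_left s5 (by positivity)
      -- 64 M t h0 ≤ 2 δ g h0
      nlinarith [mul_pos (mul_pos hM0 ht0) hh0]
    have t4 : M * (2 * t * (g * L / G)) ≤ δ * h0 / 10 := by
      have s1 : g * L / G ≤ g * L := by
        rw [div_le_iff₀ hG0]
        have : 0 ≤ g * L := by positivity
        nlinarith
      have sMG : M ≤ 2 * A * g := by
        have : M * 1 ≤ M * G := mul_le_mul_of_nonneg_left hG1 hM0.le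
        linarith
      have s2 : M * (2 * t * (g * L / G)) ≤ 2 * A * g * (2 * t * (g * L)) := by
        apply mul_le_mul sMG _ (by positivity) (by positivity)
        exact mul_le_mul_of_nonneg_left s1 (by positivity)
      have s3 : 2 * A * g * (2 * t * (g * L)) = 4 * A * t * L * (g * g) := by ring
      have s4 : g * g ≤ 64 * a ^ 2 := by nlinarith
      have s5 : 4 * A * t * L * (g * g) ≤ 4 * A * t * L * (64 * a ^ 2) :=
        mul_le_mul_of_nonneg_left s4 (by positivity)
      have s6 : 4 * A * t * L * (64 * a ^ 2) = (K0 * δ) * (a ^ 2 * L) / 10 := by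
        rw [hK0]; ring
      have s7 : (K0 * δ) * (a ^ 2 * L) / 10 ≤ δ * h0 / 10 := by
        have := mul_le_mul_of_nonneg_left hh hδ.le
        nlinarith
      linarith
    have t5 : M ≤ δ * h0 / 10 := by
      have s1 : δ * (K0 * a) ≤ δ * h0 := mul_le_mul_of_nonneg_left hKa hδ.le
      have s2 : δ * (K0 * a) = 2560 * A * t * a := by
        calc δ * (K0 * a) = (K0 * δ) * a := by ring
          _ = _ := by rw [hK0]
      have s3 : 80 * a ≤ 2560 * A * t * a := by
        have : 1 * a ≤ (A * t) * a := mul_le_mul_of_nonneg_right (by nlinarith) (by linarith)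
        nlinarith
      linarith
    have e : M * (2 * t * (4 * h0 / g + g * L / G)) =
        M * (2 * t * (4 * h0 / g)) + M * (2 * t * (g * L / G)) := by ring
    rw [e]
    have : 0 < δ * h0 := by positivity
    linarith
  · -- (3)
    have s1 : 4 * t * (g * L / G) + 4 ≤ g * (8 * t * L) := by
      have u1 : g * L / G ≤ g * L := by
        rw [div_le_iff₀ hG0]
        have : 0 ≤ g * L := by positivity
        nlinarith
      have u2 : 4 * t * (g * L / G) ≤ 4 * t * (g * L) :=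
        mul_le_mul_of_nonneg_left u1 (by positivity)
      have u3 : 1 ≤ g * L := by nlinarith
      have u4 : 1 ≤ t * (g * L) := by nlinarith
      nlinarith
    have s2 : Real.log (4 * t * (g * L / G) + 4) ≤ Real.log (g * (8 * t * L)) :=
      Real.log_le_log (by positivity) s1
    rw [Real.log_mul hg0.ne' (by positivity)] at s2
    have s3 : Real.log g ≤ Real.log (6 * g) := Real.log_le_log hg0 (by linarith)
    have s4 : Real.log (8 * t * L) ≤ L := by
      rw [Real.log_le_iff_le_exp (by positivity)]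
      have := Real.quadratic_le_exp_of_nonneg hL0.le
      nlinarith
    have s5 : δ / 1000 * L ≤ L := by nlinarith
    linarith
  · -- (4)
    have s1 : Real.log (4 * t) ≤ 4 * t := (Real.log_le_sub_one_of_pos (by positivity)).trans
      (by linarith)
    nlinarith

theorem nul_thm : S_NUL := by
  intro δ lam hδ hδ1 hl hl1
  have h8 : 1 ≤ 8 / lam := by
    rw [le_div_iff₀ hl]; linarith
  set t : ℕ := ⌈8 / lam⌉₊ with ht
  have ht8 : 8 / lam ≤ (t : ℝ) := Nat.le_ceil _
  have ht8' : (t : ℝ) ≤ 8 / lam + 1 := (Nat.ceil_lt_add_one (by positivity)).le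
  have hlt8 : 8 ≤ lam * t := by
    rw [div_le_iff₀ hl] at ht8; linarith
  have hlt9 : lam * t ≤ 9 := by
    have : lam * t ≤ lam * (8 / lam + 1) := mul_le_mul_of_nonneg_left ht8' hl.le
    have e : lam * (8 / lam + 1) = 8 + lam := by field_simp
    linarith
  have ht1 : (1 : ℝ) ≤ t := by linarith
  set A : ℝ := 256 / (lam * δ) with hA
  have hA' : lam * δ * A = 256 := by rw [hA]; field_simp
  have hA1 : 256 ≤ A := by
    rw [hA, le_div_iff₀ (by positivity)]
    have : lam * δ ≤ 1 := by nlinarith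
    linarith
  set G : ℕ := ⌈64 * t * A / δ⌉₊ with hG
  have hG1 : 64 * t * A / δ ≤ (G : ℝ) := Nat.le_ceil _
  have hG2 : 64 * t * A ≤ (G : ℝ) * δ := by rwa [div_le_iff₀ hδ] at hG1
  have hG3 : 2 * A ≤ (G : ℝ) := by
    have s1 : (G : ℝ) * δ ≤ G := by
      have : (0 : ℝ) ≤ G := by positivity
      nlinarith
    have s2 : 1 * A ≤ t * A := mul_le_mul_of_nonneg_right ht1 (by linarith)
    nlinarith
  have hG0 : (0 : ℝ) < G := by linarith
  have hG4 : (1 : ℝ) ≤ G := by linarith
  set K0 : ℝ := 2560 * A * t / δ with hK0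
  have hK0' : K0 * δ = 2560 * A * t := by rw [hK0]; field_simp
  have hK0p : 2560 * A * t ≤ K0 := by
    rw [hK0, le_div_iff₀ hδ]
    have : 0 ≤ 2560 * A * t := by positivity
    nlinarith
  have hAt : 256 ≤ A * t := by nlinarith
  have hK0q : 1000 ≤ K0 := by nlinarith
  refine ⟨t, G, (G : ℝ) ^ 2 * K0, δ / 1000, Real.exp (16 * t), ?_, ?_, ?_, by positivity, ?_, ?_⟩
  · exact_mod_cast ht1
  · have : (2 : ℝ) ≤ G := by linarith
    exact_mod_cast this
  · have : 1 ≤ (G : ℝ) ^ 2 := one_le_pow₀ hG4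
    nlinarith
  · have := Real.add_one_le_exp (16 * (t : ℝ))
    linarith
  intro L h0 g k hL hh hk hgG hg8 hlog
  rw [Real.log_exp] at hL
  have hL0 : 0 < L := by linarith
  have ha : (1 : ℝ) ≤ (G : ℝ) ^ k := one_le_pow₀ hG4
  have hga : (G : ℝ) ^ k < g := by exact_mod_cast hgG
  have hGk : (G : ℝ) ≤ (G : ℝ) ^ k := by
    calc (G : ℝ) = (G : ℝ) ^ 1 := (pow_one _).symm
      _ ≤ (G : ℝ) ^ k := pow_le_pow_right₀ hG4 hk
  have hgGr : (G : ℝ) ≤ g := by linarith
  have hg0 : (0 : ℝ) < g := by linarith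
  have hC : K0 * ((G : ℝ) ^ k) ^ 2 * L ≤ h0 := by
    refine le_trans ?_ hh
    apply mul_le_mul_of_nonneg_right _ hL0.le
    have e1 : ((G : ℝ) ^ 2 * K0) ^ (k + 1) = (((G : ℝ) ^ k) ^ 2 * (G : ℝ) ^ 2) * K0 ^ (k + 1) := by
      rw [mul_pow, ← pow_mul, ← pow_mul, ← pow_add]
      congr 2
      ring
    rw [e1]
    have e2 : K0 ≤ K0 ^ (k + 1) := by
      calc K0 = K0 ^ 1 := (pow_one _).symm
        _ ≤ K0 ^ (k + 1) := pow_le_pow_right₀ (by linarith) (by omega)
    have e3 : ((G : ℝ) ^ k) ^ 2 ≤ ((G : ℝ) ^ k) ^ 2 * (G : ℝ) ^ 2 := by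
      have : 1 ≤ (G : ℝ) ^ 2 := one_le_pow₀ hG4
      have h0 : 0 ≤ ((G : ℝ) ^ k) ^ 2 := by positivity
      nlinarith
    calc K0 * ((G : ℝ) ^ k) ^ 2 = ((G : ℝ) ^ k) ^ 2 * K0 := by ring
      _ ≤ (((G : ℝ) ^ k) ^ 2 * (G : ℝ) ^ 2) * K0 ^ (k + 1) :=
        mul_le_mul e3 e2 (by linarith) (by positivity)
  have hK0pos : 0 < K0 := by linarith
  have hKaL : K0 * ((G : ℝ) ^ k) * L ≤ h0 := by
    refine le_trans ?_ hC
    apply mul_le_mul_of_nonneg_right _ hL0.le
    apply mul_le_mul_of_nonneg_left _ hK0pos.le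
    nlinarith
  have hh0 : 0 < h0 := by
    have : 0 < K0 * ((G : ℝ) ^ k) * L := by positivity
    linarith
  -- M
  have hx1 : 1 ≤ A * g / G := by
    rw [le_div_iff₀ hG0]
    nlinarith
  obtain ⟨hM1, hM2⟩ := ceil_bd (A * g / G) hx1
  set M : ℕ := ⌈A * g / G⌉₊ with hM
  have hM1' : A * g ≤ (M : ℝ) * G := by rwa [div_le_iff₀ hG0] at hM1
  have hM2' : (M : ℝ) * G ≤ 2 * A * g := by
    have := mul_le_mul_of_nonneg_right hM2 hG0.le
    have e : 2 * (A * g / G) * G = 2 * A * g := by field_simp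
    linarith
  have hMr : (1 : ℝ) ≤ M := by linarith
  have hMg : (M : ℝ) ≤ g := by
    have s1 : (M : ℝ) * G ≤ g * G := by
      have : 2 * A * g ≤ G * g := mul_le_mul_of_nonneg_right hG3 hg0.le
      linarith
    exact le_of_mul_le_mul_right s1 hG0
  -- n
  set D : ℝ := lam * t * L * M with hD
  have hD0 : 0 < D := by positivity
  have hD1 : D ≤ 72 * (G : ℝ) ^ k * L := by
    have s1 : (M : ℝ) ≤ 8 * (G : ℝ) ^ k := by linarith
    calc D = (lam * t) * (L * M) := by rw [hD]; ring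
      _ ≤ 9 * (L * (8 * (G : ℝ) ^ k)) :=
        mul_le_mul hlt9 (mul_le_mul_of_nonneg_left s1 hL0.le) (by positivity) (by norm_num)
      _ = 72 * (G : ℝ) ^ k * L := by ring
  have hq2 : 2 ≤ 4 * h0 / D := by
    rw [le_div_iff₀ hD0]
    have s1 : 1000 * ((G : ℝ) ^ k * L) ≤ K0 * ((G : ℝ) ^ k * L) :=
      mul_le_mul_of_nonneg_right hK0q (by positivity)
    nlinarith
  obtain ⟨hn1, hn2⟩ := ceil_bd (4 * h0 / D) (by linarith)
  set n : ℕ := ⌈4 * h0 / D⌉₊ with hn
  have hn1' : 4 * h0 ≤ lam * t * L * (M * n) := by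
    rw [div_le_iff₀ hD0] at hn1
    calc 4 * h0 ≤ n * D := hn1
      _ = lam * t * L * (M * n) := by rw [hD]; ring
  have hn2' : lam * t * L * (M * n) ≤ 8 * h0 := by
    have s1 := mul_le_mul_of_nonneg_right hn2 hD0.le
    have e : 2 * (4 * h0 / D) * D = 8 * h0 := by field_simp; ring
    calc lam * t * L * (M * n) = n * D := by rw [hD]; ring
      _ ≤ 8 * h0 := by linarith
  have hn2r : (2 : ℝ) ≤ n := by linarith
  have hcore := core δ lam t A G K0 L h0 g ((G : ℝ) ^ k) M n hδ hδ1 hl ht1 hlt8 hA' hA1 hG2 hG4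
    hK0' hL ha hga hg8 hC hlog hM1' hM2' hMg hMr hn2r hn1' hn2'
  refine ⟨M, n, ?_, ?_, ?_, hcore.1, hcore.2.1, hcore.2.2.1, hcore.2.2.2⟩
  · exact_mod_cast hMr
  · exact_mod_cast hMg
  · exact_mod_cast hn2r

end Pool.LH
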